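import Pool.Agent.Y110.FJ.Stm4

set_option autoImplicit false

/-! Project FJ (helper110), job FJ-COX: Coxeter groups of arbitrary rank extended by groups of
diagram automorphisms. -/

namespace Pool.Agent.Y220.FJ

open Pool.Agent.Y110.FJ

open Classical in
/-- the Coxeter matrix of a labelling -/
noncomputable def cox {V : Type} (m : V → V → ℕ) : CoxeterMatrix V where
  M := Matrix.of fun v w => if v = w then 1 else if m v w = m w v ∧ m v w ≠ 1 then m v w else 0
  isSymm := by
    ext v w
    simp only [Matrix.transpose_apply, Matrix.of_apply]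
    by_cases h : v = w
    · subst h
      rfl
    · rw [if_neg h, if_neg (Ne.symm h)]
      by_cases h1 : m v w = m w v
      · rw [h1]
      · rw [if_neg fun h2 => h1 h2.1.symm, if_neg fun h2 => h1 h2.1]
  diagonal := by
    intro v
    simp
  off_diagonal := by
    intro v w h
    simp only [Matrix.of_apply]
    rw [if_neg h]
    split_ifs with h1
    · exact h1.2
    · exact zero_ne_one

open Classical in
theorem cox_apply {V : Type} (m : V → V → ℕ) (v w : V) :
    cox m v w = if v = w then 1 else if m v w = m w v ∧ m v w ≠ 1 then m v w else 0 := rfl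

theorem cox_comp {V W : Type} (m : V → V → ℕ) (m' : W → W → ℕ) (j : V → W)
    (hj : Function.Injective j) (h : ∀ v w, m' (j v) (j w) = m v w) (v w : V) :
    cox m' (j v) (j w) = cox m v w := by
  rw [cox_apply, cox_apply, h, h]
  by_cases hvw : v = w
  · subst hvw
    rw [if_pos rfl, if_pos rfl]
  · rw [if_neg hvw, if_neg fun h1 => hvw (hj h1)]

theorem hom_ext' {V G : Type} [Group G] {M : CoxeterMatrix V} {f g : M.Group →* G}
    (h : ∀ v, f (M.simple v) = g (M.simple v)) : f = g :=
  M.toCoxeterSystem.ext_simple h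

/-- the homomorphism given by an embedding of labelled graphs -/
noncomputable def mpC {V W : Type} (m : V → V → ℕ) (m' : W → W → ℕ) (j : V → W)
    (hj : Function.Injective j) (h : ∀ v w, m' (j v) (j w) = m v w) :
    (cox m).Group →* (cox m').Group :=
  (cox m).toCoxeterSystem.lift ⟨fun v => (cox m').simple (j v), fun v w => by
    have h1 := (cox m').toCoxeterSystem.simple_mul_simple_pow (j v) (j w)
    rw [cox_comp m m' j hj h] at h1
    exact h1⟩

theorem mpC_simple {V W : Type} (m : V → V → ℕ) (m' : W → W → ℕ) (j : V → W)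
    (hj : Function.Injective j) (h : ∀ v w, m' (j v) (j w) = m v w) (v : V) :
    mpC m m' j hj h ((cox m).simple v) = (cox m').simple (j v) :=
  CoxeterSystem.lift_apply_simple _ _ v

theorem mpC_comp {U V W : Type} (m : U → U → ℕ) (m' : V → V → ℕ) (m'' : W → W → ℕ) (i : U → V)
    (j : V → W) (hi : Function.Injective i) (hj : Function.Injective j)
    (h : ∀ v w, m' (i v) (i w) = m v w) (h' : ∀ v w, m'' (j v) (j w) = m' v w)
    (hji : Function.Injective (j ∘ i)) (h'' : ∀ v w, m'' ((j ∘ i) v) ((j ∘ i) w) = m v w)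
    (x : (cox m).Group) :
    mpC m' m'' j hj h' (mpC m m' i hi h x) = mpC m m'' (j ∘ i) hji h'' x := by
  have h1 : (mpC m' m'' j hj h').comp (mpC m m' i hi h) = mpC m m'' (j ∘ i) hji h'' := by
    refine hom_ext' fun v => ?_
    rw [MonoidHom.comp_apply, mpC_simple, mpC_simple, mpC_simple]
    rfl
  exact DFunLike.congr_fun h1 x

theorem mpC_id {V : Type} (m : V → V → ℕ) (hi : Function.Injective (id : V → V))
    (h : ∀ v w, m (id v) (id w) = m v w) (x : (cox m).Group) : mpC m m id hi h x = x := by
  have h1 : mpC m m id hi h = MonoidHom.id _ := by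
    refine hom_ext' fun v => ?_
    rw [mpC_simple]
    rfl
  exact DFunLike.congr_fun h1 x

theorem fin' {V : Type} (m : V → V → ℕ) (x : (cox m).Group) : ∃ S : Set V, S.Finite ∧
    ∃ y : (cox (fun v w : S => m v w)).Group, mpC (fun v w : S => m v w) m Subtype.val
      Subtype.val_injective (fun _ _ => rfl) y = x := by
  induction x using (cox m).toCoxeterSystem.simple_induction_left with
  | one => exact ⟨∅, Set.finite_empty, 1, map_one _⟩
  | mul_simple_left w i ih =>
    obtain ⟨S, hS, y, hy⟩ := ih
    let ι : ↥S → ↥(insert i S) := fun v => ⟨v, Set.mem_insert_of_mem i v.2⟩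
    have hι : Function.Injective ι := fun v w h =>
      Subtype.ext (congrArg (fun z : ↥(insert i S) => (z : V)) h)
    refine ⟨insert i S, hS.insert i,
      (cox (fun v w : ↥(insert i S) => m v w)).simple ⟨i, Set.mem_insert i S⟩ *
        mpC (fun v w : S => m v w) (fun v w : ↥(insert i S) => m v w) ι hι (fun _ _ => rfl) y, ?_⟩
    have h1 := mpC_comp (fun v w : S => m v w) (fun v w : ↥(insert i S) => m v w) m ι Subtype.val hι
      Subtype.val_injective (fun _ _ => rfl) (fun _ _ => rfl)
      (Subtype.val_injective.comp hι) (fun _ _ => rfl) y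
    rw [map_mul, mpC_simple]
    have h2 : mpC (fun v w : S => m v w) m (Subtype.val ∘ ι) (Subtype.val_injective.comp hι)
        (fun _ _ => rfl) y = w := hy
    exact congrArg₂ (· * ·) rfl (h1.trans h2)

/-- the functor -/
noncomputable def Phi (h' : S_COXI) : LGF ℕ where
  F _ m := (cox m).Group
  grp _ _ := inferInstance
  mp m m' j hj h := mpC m m' j hj h
  mp_inj m m' j hj h _ :=
    h' _ _ (cox m) (cox m') j hj (cox_comp m m' j hj h) _ (mpC_simple m m' j hj h)
  mp_id m x := mpC_id m _ _ x
  mp_comp m m' m'' i j hi hj h h' x := mpC_comp m m' m'' i j hi hj h h' _ _ x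
  fin m x := fin' m x

theorem cox_self {V : Type} (M : CoxeterMatrix V) : cox (fun v w => M v w) = M := by
  apply CoxeterMatrix.ext
  ext v w
  rw [cox_apply]
  by_cases h : v = w
  · subst h
    rw [if_pos rfl, M.diagonal]
  · rw [if_neg h, if_pos ⟨M.symmetric v w, M.off_diagonal v w h⟩]

theorem t_cox (h : S_LGF) (h' : S_COXI) : S_COX := by
  intro C hC hfin V Q _ _ M α hM hα hQ
  have key : ∀ M₁ : CoxeterMatrix V, (∀ α' : Q →* MulAut M₁.Group,
      (∀ q v, α' q (M₁.simple v) = M₁.simple (q • v)) → C (M₁.Group ⋊[α'] Q)) → M₁ = M →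
      C (M.Group ⋊[α] Q) := by
    rintro M₁ h1 rfl
    exact h1 α hα
  refine key (cox fun v w => M v w) (fun α' hα' => ?_) (cox_self M)
  refine h C hC ℕ (Phi h') (fun T hT m _ => hfin T hT (cox m)) V Q (fun v w => M v w)
    (fun v w => M.symmetric v w) hM α' (fun q x => ?_) hQ
  have h1 : ((α' q : MulAut (cox fun v w => M v w).Group) :
      (cox fun v w => M v w).Group ≃* (cox fun v w => M v w).Group).toMonoidHom =
      mpC (fun v w => M v w) (fun v w => M v w) (fun v => q • v) (MulAction.injective q) (hM q) := by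
    refine hom_ext' fun v => ?_
    rw [mpC_simple]
    exact hα' q v
  exact DFunLike.congr_fun h1 x

end Pool.Agent.Y220.FJ
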